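import Mathlib
import Pool.Agent.R463.PL

set_option autoImplicit false

/-!
# The gap laws for sifted arguments of systems of polynomials with large coefficients

The `n` for which the values of a system of `k` irreducible polynomials have no prime factor
`≤ X ^ (1 / r)`: the distances to the `l`-th predecessors have the distribution of the Poisson process in
ALL intervals of length at least `X ^ θ`, uniformly in all systems with coefficients up to `X ^ E`.
-/

namespace Pool.Agent.Results.MP_51e72e_nt.GapLaws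

open Polynomial Finset Filter
open Pool.Agent.R463.PS

/-- **The gap laws, uniformly in the systems of polynomials.**

`System D H U f`: the polynomials `f i`, `i < k`, are irreducible of degrees between `1` and `D`, with
coefficients of absolute value at most `H`, their product has no fixed prime divisor, and
`f i ≠ ± f j (x + t)` for all `i, j` and all integers `1 ≤ t ≤ U`.
`Sifted f X r n`: no prime `p ≤ X ^ (1 / r)` divides a value `f i (n)`. `V f X r` is the density of these
`n`, the product of `1 - ω(p) / p` over the primes `p ≤ X ^ (1 / r)`.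
`Far f X r l T Z Y`: the number of the sifted `b` in `(Z, Z + Y]` with fewer than `l` sifted integers in
`[b - T, b)`; that is, the distance of `b` to its `l`-th sifted predecessor exceeds `T`.

(1) For a fixed system of distinct polynomials with positive leading coefficients, `V` is of the exact
order `log ^ (-k) X`.
(2) For `E, δ, θ > 0`, `l₀`, `x₀` and `ε > 0` there is `r₀` such that for all `r ≥ r₀`, all `C` and all
large `X`: for ALL systems with coefficients at most `X ^ E`, without translates for `t ≤ X ^ δ`, of a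
density `V ≤ C / log X`, and for ALL intervals `(Z, Z + Y]` with `Y ≥ X ^ θ`, `Far` is the value
`Y V ∑_{j < l} exp (- T V) (T V) ^ j / j!` for the Poisson process of density `V`, up to `ε Y V`, uniformly
for all `l ≤ l₀` and all `T`, and for all `l` and all `T ≤ x₀ / V`. (For `T = 0` and `l = 1` this is the
number of the sifted integers in the interval.) -/
theorem result (k D : ℕ) :
    (∀ f : Fin k → ℤ[X], (∀ i, Irreducible (f i)) → (∀ i, 1 ≤ (f i).natDegree) →
      (∀ i, 0 < (f i).leadingCoeff) → Function.Injective f →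
      (∀ p : ℕ, p.Prime → ∃ n : ℕ, ∀ i, ¬ (p : ℤ) ∣ (f i).eval (n : ℤ)) →
      ∀ r : ℕ, 2 ≤ r → ∃ v C : ℝ, 0 < v ∧ 0 < C ∧ ∀ᶠ X : ℕ in atTop,
        v / Real.log X ^ k ≤ V f X r ∧ V f X r ≤ C / Real.log X ^ k) ∧
    ∀ E δ θ : ℝ, 0 < E → 0 < δ → 0 < θ → ∀ (l₀ : ℕ) (x₀ ε : ℝ), 0 < ε →
    ∃ r₀ : ℕ, ∀ r : ℕ, r₀ ≤ r → ∀ C : ℝ, ∀ᶠ X : ℕ in atTop, ∀ f : Fin k → ℤ[X],
      System D ((X : ℝ) ^ E) ((X : ℝ) ^ δ) f → V f X r ≤ C / Real.log X →
      ∀ Z Y : ℕ, (X : ℝ) ^ θ ≤ Y → ∀ l T : ℕ, (l ≤ l₀ ∨ T * V f X r ≤ x₀) →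
        |(Far f X r l T Z Y : ℝ) - Y * V f X r *
          ∑ j ∈ range l, Real.exp (-(T * V f X r)) * (T * V f X r) ^ j / j.factorial| ≤
          ε * (Y * V f X r) :=
  ⟨fun f h1 h2 h3 h4 h5 r hr => V_fixed f h1 h2 h3 h4 h5 r hr,
    fun E δ θ hE hδ hθ l₀ x₀ ε hε => gaps k D E δ θ hE hδ hθ l₀ x₀ ε hε⟩

end Pool.Agent.Results.MP_51e72e_nt.GapLaws
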