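import Mathlib
import Pool.Agent.R463.PL

set_option autoImplicit false

/-!
# Systems of polynomials containing a linear form: the law after the prime values of the linear form
-/

namespace Pool.Agent.Results.MP_51e72e_nt.LawAfterPrimes

open Polynomial Finset Filter
open Pool.Agent.R463.PS

/-- **The number of prime values of a linear form at which the other polynomials of the system have no
small prime factor, and the Poisson law after them**, uniformly in the systems.

`System D H U f`: the polynomials `f i`, `i < k`, are irreducible of degrees between `1` and `D`, with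
coefficients of absolute value at most `H`, their product has no fixed prime divisor, and
`f i ≠ ± f j (x + t)` for all `i, j` and all integers `1 ≤ t ≤ U`.
`Sifted f X r n`: no prime `p ≤ X ^ (1 / r)` divides a value `f i (n)`. `V` and `W` are the products of
`1 - ω(p) / p` and of `(1 - ω(p) / p) / (1 - 1 / p)` over the primes `p ≤ X ^ (1 / r)`.
`Pr a b f X r A L`: the set of the sifted `n` in `(A, A + L]` for which `a n + b` is a PRIME.
`Next f X r T n`: the number of the sifted integers in `(n, n + T]`.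

Let `a` be squarefree. For `E, δ', θ, δ > 0`, `x₀` and `0 < ε ≤ 1` there is `r₀` such that for all
`r ≥ r₀`, all `C` and all large `X` the following holds for ALL systems with coefficients at most `X ^ E`,
without translates for `t ≤ X ^ δ'`, with density `V ≤ C / log X`, one of whose polynomials is
`a x + b`, `b ≤ X ^ (θ / 4)` prime to `a`, and none of whose values is divisible by a prime factor of `a`;
for all `x ≥ X ^ θ` and all windows `(A, A + L]` in `(0, x]` with `L ≥ δ x`:
(1) `Pr` has `(1 + η) L W / log x` elements, `|η| ≤ ε`;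
(2) for `T V ≤ x₀` the number of the sifted integers in `(n, n + T]`, `n` in `Pr`, has the Poisson law
of mean `T V`, up to `ε`. -/
theorem result (a k D : ℕ) (ha : Squarefree a) (E δ' θ δ : ℝ) (hE : 0 < E) (hδ' : 0 < δ')
    (hθ : 0 < θ) (hδ : 0 < δ) (hδ1 : δ ≤ 1) (x₀ ε : ℝ) (hε : 0 < ε) (hε1 : ε ≤ 1) :
    ∃ r₀ : ℕ, 2 ≤ r₀ ∧ ∀ r : ℕ, r₀ ≤ r → ∀ C : ℝ, ∀ᶠ X : ℕ in atTop,
      ∀ (f : Fin k → ℤ[X]) (b : ℕ), System D ((X : ℝ) ^ E) ((X : ℝ) ^ δ') f → Nat.Coprime a b →
      (∀ p n : ℕ, p.Prime → p ∣ a → ∀ i, ¬ (p : ℤ) ∣ (f i).eval (n : ℤ)) →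
      (∃ i, ∀ n : ℕ, (f i).eval (n : ℤ) = a * n + b) →
      V f X r ≤ C / Real.log X → (b : ℝ) ≤ (X : ℝ) ^ (θ / 4) →
      ∀ x : ℕ, (X : ℝ) ^ θ ≤ x → ∀ A L : ℕ, δ * x ≤ L → A + L ≤ x →
        |((Pr a b f X r A L).card : ℝ) * Real.log x - L * W f X r| ≤ ε * (L * W f X r) ∧
        ∀ T : ℕ, T * V f X r ≤ x₀ → ∀ B : Finset ℕ,
          |(((Pr a b f X r A L).filter (fun n => Next f X r T n ∈ B)).card : ℝ) -
            (Pr a b f X r A L).card *
              ∑ j ∈ B, Real.exp (-(T * V f X r)) * (T * V f X r) ^ j / j.factorial| ≤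
            ε * (Pr a b f X r A L).card :=
  after a k D ha E δ' θ δ hE hδ' hθ hδ hδ1 x₀ ε hε hε1

end Pool.Agent.Results.MP_51e72e_nt.LawAfterPrimes
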