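import Mathlib
import Pool.Agent.R463.PL

set_option autoImplicit false

/-!
# Regular points of arbitrary sets of sifted arguments of systems of polynomials

Almost all elements of EVERY set of integers `n` for which the values of a system have no small prime
factor (for instance of every set of `n` with prime values) are regular points of the set, uniformly in all
systems with coefficients up to `X ^ E`.
-/

namespace Pool.Agent.Results.MP_51e72e_nt.RegularPoints

open Polynomial Finset Filter
open Pool.Agent.R463.PS

open Classical in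
/-- **Regular points, uniformly in the systems of polynomials.**

`System D H U f`: the polynomials `f i`, `i < k`, are irreducible of degrees between `1` and `D`, with
coefficients of absolute value at most `H`, their product has no fixed prime divisor (nothing on translates
for `U = 0`). `Sifted f X r n`: no prime `p ≤ X ^ (1 / r)` divides a value `f i (n)`; `V f X r`: the
density of these `n`, the product of `1 - ω(p) / p` over the primes `p ≤ X ^ (1 / r)`.
`Regular A V c δ B Y m`: every interval `(m - s, m + t]`, `s, t ≤ Y`, of a length `≥ 1 / (c V)` contains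
between `c (s + t) V` and `(s + t) V / c` elements of `A`, and for all scales `1 / V ≤ 2 ^ j ≤ Y` with at
most `B` exceptions there is a density `c ≤ lam ≤ 1 / c` such that all intervals `(m - s, m + t]`,
`s, t ≤ 2 ^ j`, contain `lam (s + t) V` elements of `A`, up to `δ 2 ^ j V`.

There is `r₀` such that for all `r ≥ r₀`, `C > 0` and `ε > 0` there is `c > 0` such that for all `δ > 0`
there is `B` with the following property for all large `X`: for ALL systems with coefficients at most
`X ^ E`, with density `V ≤ C / log X`, for which the `t ≤ X ^ δ'` with `f i = ± f j (x + t)` for some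
`i, j` belong to a set `E₀` of at most `e` integers, for all intervals `(u, u + Y]` with
`X ^ θ ≤ Y ≤ X`, `Y ≤ u` and for EVERY set `A` of sifted integers, at most `ε Y V` elements of `A` in
`(u, u + Y]` are not regular points of `A`. -/
theorem result (k D e : ℕ) (E δ' θ : ℝ) (hE : 0 < E) (hδ' : 0 < δ') (hθ : 0 < θ) :
    ∃ r₀ : ℕ, 2 ≤ r₀ ∧ ∀ r : ℕ, r₀ ≤ r → ∀ C : ℝ, 0 < C → ∀ ε : ℝ, 0 < ε → ∃ c : ℝ, 0 < c ∧
      ∀ δ : ℝ, 0 < δ → ∃ B : ℕ, ∀ᶠ X : ℕ in atTop, ∀ f : Fin k → ℤ[X],
      System D ((X : ℝ) ^ E) 0 f → ∀ E₀ : Finset ℕ, E₀.card ≤ e →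
      (∀ i j, ∀ t : ℕ, 1 ≤ t → (t : ℝ) ≤ (X : ℝ) ^ δ' → t ∉ E₀ →
        f i ≠ (f j).comp (Polynomial.X + Polynomial.C (t : ℤ)) ∧
        f i ≠ -(f j).comp (Polynomial.X + Polynomial.C (t : ℤ))) →
      V f X r ≤ C / Real.log X →
      ∀ u Y : ℕ, (X : ℝ) ^ θ ≤ Y → Y ≤ X → Y ≤ u →
      ∀ A : Set ℕ, (∀ m ∈ A, Sifted f X r m) →
        (((Ioc u (u + Y)).filter (fun m => m ∈ A ∧ ¬ Regular A (V f X r) c δ B Y m)).card : ℝ) ≤
          ε * (Y * V f X r) :=
  regular k D e E δ' θ hE hδ' hθ

end Pool.Agent.Results.MP_51e72e_nt.RegularPoints
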